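import Pool.Agent.helper57.LQ.SpecA

set_option autoImplicit false

noncomputable section

namespace Pool.Agent.LQ

theorem SDF_zero : sd 0 = 0 := by
  unfold sd
  simp

theorem SDF_dbl (n : ℕ) : sd (2 * n) = 4 * sd n := by
  rcases Nat.eq_zero_or_pos n with rfl | hn
  · simp [SDF_zero]
  · unfold sd
    have h : Nat.digits 2 (2 * n) = 0 :: Nat.digits 2 n := by
      have := Nat.digits_add 2 (by norm_num) 0 n (by norm_num) (Or.inr (by omega))
      rw [zero_add] at this
      exact this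
    rw [h, Nat.ofDigits_cons]
    simp

theorem SDF_dblp (n : ℕ) : sd (2 * n + 1) = 4 * sd n + 1 := by
  unfold sd
  have h : Nat.digits 2 (2 * n + 1) = 1 :: Nat.digits 2 n := by
    have := Nat.digits_add 2 (by norm_num) 1 n (by norm_num) (Or.inl (by norm_num))
    rw [add_comm] at this
    exact this
  rw [h, Nat.ofDigits_cons]
  simp [add_comm]

theorem SDF_one : sd 1 = 1 := by
  have := SDF_dblp 0
  rw [SDF_zero] at this
  exact this

theorem SDF_sup (N : ℕ) : ∀ a b : ℕ, a + b = N → sd a + sd b ≤ sd (a + b) := by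
  induction N using Nat.strong_induction_on with
  | _ N ih =>
    intro a b hab
    rcases Nat.eq_zero_or_pos a with rfl | ha
    · simp [SDF_zero]
    rcases Nat.eq_zero_or_pos b with rfl | hb
    · simp [SDF_zero]
    obtain ⟨c, hc⟩ := Nat.even_or_odd' a
    obtain ⟨d, hd⟩ := Nat.even_or_odd' b
    rcases hc with hc | hc <;> rcases hd with hd | hd
    · have h := ih (c + d) (by omega) c d rfl
      have e : a + b = 2 * (c + d) := by omega
      rw [e, hc, hd, SDF_dbl, SDF_dbl, SDF_dbl]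
      omega
    · have h := ih (c + d) (by omega) c d rfl
      have e : a + b = 2 * (c + d) + 1 := by omega
      rw [e, hc, hd, SDF_dbl, SDF_dblp, SDF_dblp]
      omega
    · have h := ih (c + d) (by omega) c d rfl
      have e : a + b = 2 * (c + d) + 1 := by omega
      rw [e, hc, hd, SDF_dbl, SDF_dblp, SDF_dblp]
      omega
    · rcases Nat.eq_zero_or_pos (c + d) with h0 | hpos
      · have hc0 : c = 0 := by omega
        have hd0 : d = 0 := by omega
        subst hc0 hd0
        rw [hc, hd]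
        have e : 2 * 0 + 1 + (2 * 0 + 1) = 2 * 1 := by norm_num
        rw [e, SDF_dbl]
        simp [SDF_one]
      · have h := ih (c + d) (by omega) c d rfl
        have h' := ih (c + d + 1) (by omega) (c + d) 1 rfl
        have e : a + b = 2 * (c + d + 1) := by omega
        rw [e, hc, hd, SDF_dbl, SDF_dblp, SDF_dblp]
        rw [SDF_one] at h'
        omega

theorem SDF_rep (k : ℕ) : ∃ a b : ℕ, sd a + 2 * sd b = k := by
  induction k using Nat.strong_induction_on with
  | _ k ih =>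
    rcases Nat.eq_zero_or_pos k with rfl | hk
    · exact ⟨0, 0, by simp [SDF_zero]⟩
    obtain ⟨a, b, hab⟩ := ih (k / 4) (by omega)
    have h4 : k % 4 < 4 := Nat.mod_lt _ (by norm_num)
    have hd := Nat.div_add_mod k 4
    rcases Nat.lt_or_ge (k % 4) 2 with h | h
    · rcases Nat.lt_or_ge (k % 4) 1 with h' | h'
      · exact ⟨2 * a, 2 * b, by rw [SDF_dbl, SDF_dbl]; omega⟩
      · exact ⟨2 * a + 1, 2 * b, by rw [SDF_dblp, SDF_dbl]; omega⟩
    · rcases Nat.lt_or_ge (k % 4) 3 with h' | h'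
      · exact ⟨2 * a, 2 * b + 1, by rw [SDF_dbl, SDF_dblp]; omega⟩
      · exact ⟨2 * a + 1, 2 * b + 1, by rw [SDF_dblp, SDF_dblp]; omega⟩

theorem SDF_mer (j : ℕ) : 3 * sd (2 ^ j - 1) + 1 = 4 ^ j := by
  induction j with
  | zero => simp [SDF_zero]
  | succ j ih =>
    have h1 : 1 ≤ 2 ^ j := Nat.one_le_two_pow
    have e : 2 ^ (j + 1) - 1 = 2 * (2 ^ j - 1) + 1 := by
      rw [pow_succ]
      omega
    rw [e, SDF_dblp, pow_succ]
    omega

theorem SDF : SDF_stmt := by
  refine ⟨SDF_zero, fun n => ⟨SDF_dbl n, SDF_dblp n⟩, fun a b => SDF_sup _ a b rfl, SDF_rep, ?_⟩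
  intro k hk
  obtain ⟨j, rfl⟩ : ∃ j, k = j + 1 := ⟨k - 1, by omega⟩
  have h1 : 1 ≤ 2 ^ j := Nat.one_le_two_pow
  have e : 2 ^ (j + 1) - 2 = 2 * (2 ^ j - 1) := by
    rw [pow_succ]
    omega
  have h := SDF_mer j
  rw [e, SDF_dbl, pow_succ]
  omega

end Pool.Agent.LQ
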